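import Pool.Agent.V1143.KC.Ld
import Pool.Agent.V1143.KC.Jac

/-!
# Central values and Tate-Shafarevich groups of congruent abelian varieties over all extensions of prime power degree

Let `K` be a global function field with the field of constants `k`, `|k| = q`, and `A` and `A⁺` abelian varieties
over `K` without constant part whose Euler factors `P_v`, `P⁺_v` are congruent modulo a prime `ℓ ∤ q` outside a
finite set `B` of places; this is true if `A[ℓ]` and `A⁺[ℓ]` are isomorphic Galois modules, or have isomorphic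
semisimplifications. By Tate, Milne, Kato and Trihan the group `Sha(A/L)` is finite if and only if the rank of
`A(L)` is the order of vanishing of `L(A/L, T)` at `1 / q'`, and then the leading coefficient is
`|Sha| · (regulator) · (Tamagawa numbers) · (power of q') / |torsion|²`.

The theorem compares `A` and `A⁺` over ALL Galois extensions `L` of `K` of degree a power of `ℓ`, with any
ramification and any field of constants: the leading coefficients modulo `ℓ` differ by explicit Euler factors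
at the places in `B`, which do not depend on `L` as long as the reduction does not become better; and if the
central value of `A⁺` over `L` is a unit at `ℓ`, then so is the one of `A` under a local condition, so that
`Sha(A/L)` and `Sha(A⁺/L)` are both finite.
-/

set_option autoImplicit false

open Polynomial FF Module Pool.Agent.W343.BSD Pool.Agent.V1143.KC.LT

namespace Pool.Agent.Results.MP_72e2e6_nt.CongruentLeadingTerms

/-- `∏ P_v(T ^ (deg v))⁻¹ = U / V` with integral polynomials `P_v`, `U`, `V`, where `P_v(0) = V(0) = 1`. -/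
structure LData (k : Type) {K : Type} [Field k] [Field K] [Algebra k K] (P : Place k K → ℤ[X])
    (U V : ℤ[X]) : Prop where
  local_one : ∀ v, (P v).coeff 0 = 1
  den_one : V.coeff 0 = 1
  product : ∃ Λ : PowerSeries ℤ, IsProduct k P Λ ∧ Λ * (V : PowerSeries ℤ) = (U : PowerSeries ℤ)

/-- For the places `w` of `L` over places `v ∉ T` the reciprocal zeros of `P'_w` are the `f`-th powers of those
of `P_v`, where `f` is the residue degree. -/
def Lifts {k K k' L : Type} [Field k] [Field K] [Algebra k K] [Field k'] [Field L]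
    [Algebra k' L] [Algebra K L] (T : Finset (Place k K)) (P : Place k K → ℤ[X])
    (P' : Place k' L → ℤ[X]) : Prop :=
  ∀ (v : Place k K) (w : Place k' L) (e f : ℕ), v ∉ T → LiesOver w v e →
    Nat.card (S.Res w) = Nat.card (S.Res v) ^ f → IsPower f (P v) (P' w)

/-- The multiplicity of the zero `q ^ (-b)` modulo `ℓ` of the Euler factor `P(T ^ (deg v))`, where `q` is the number
of elements of the field of constants. -/
noncomputable def localMult {k K : Type} [Field k] [Field K] [Algebra k K] (ℓ : ℕ) [Fact ℓ.Prime]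
    (b : ℕ) (v : Place k K) (P : ℤ[X]) : ℕ :=
  mult ℓ (Nat.card k) b (expand ℤ (S.deg v) P)

/-- The leading coefficient at `q ^ (-b)` modulo `ℓ` of the Euler factor `P(T ^ (deg v))`. -/
noncomputable def localLead {k K : Type} [Field k] [Field K] [Algebra k K] (ℓ : ℕ) [Fact ℓ.Prime]
    (b : ℕ) (v : Place k K) (P : ℤ[X]) : ZMod ℓ :=
  lead ℓ (Nat.card k) b (expand ℤ (S.deg v) P)

open Classical in
/-- The product of the leading coefficients modulo `ℓ` of the Euler factors over `L` at the places over `T`, and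
of those over `K` at the places in `B` which are not in `T`. -/
noncomputable def localProd {k K k' L : Type} [Field k] [Field K] [Algebra k K] [Field k']
    [Field L] [Algebra k' L] [Algebra K L] (ℓ : ℕ) [Fact ℓ.Prime] (b : ℕ)
    (B T : Finset (Place k K)) (P : Place k K → ℤ[X]) (P' : Place k' L → ℤ[X]) : ZMod ℓ :=
  (∏ᶠ w ∈ Above k' L T, localLead ℓ b w (P' w)) * ∏ v ∈ B \ T, localLead ℓ b v (P v)

/-- Let `P_v` and `P⁺_v` be Euler factors over `K` with the products `U / V` and `U⁺ / V⁺`, congruent modulo `ℓ`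
outside `B`; let `lead` be the leading coefficient at `q ^ (-b)`, or `q' ^ (-b)` over `L`, of the reduction
modulo `ℓ`, and `m` the multiplicity of this zero modulo `ℓ`. (Abelian varieties without constant part: `b = 1`
and all denominators are `1`.)

(1) `lead(U) lead(V⁺) ∏_{v in B} lead(P_v) = lead(U⁺) lead(V) ∏_{v in B} lead(P⁺_v)`.

Let `L` be any Galois extension of `K` of degree a power of `ℓ`, with the field of constants `k'`, `|k'| = q'`, and
with Euler factors `P'_w`, `P'⁺_w` which come from `K` outside a set `T ⊆ B` (for `T` one takes the places where the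
reduction over `L` is better than over `K`), with the products `R / W` and `R⁺ / W⁺`.

(2) `lead(R) lead(W⁺) ∏_{w over T} lead(P'_w) ∏_{v in B, not in T} lead(P_v) =`
`lead(R⁺) lead(W) ∏_{w over T} lead(P'⁺_w) ∏_{v in B, not in T} lead(P⁺_v)`; all factors are different from `0`.

(3) If the orders of vanishing of `R` and `R⁺` are the multiplicities modulo `ℓ`, then their rational leading
coefficients are units at `ℓ` with residue classes `y`, `y⁺` which satisfy (2) in the place of `lead(R)`,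
`lead(R⁺)`.

(4) If `m(W) = m(R⁺) = 0`, `m(P'⁺_w) = 0` for the `w` over `T`, and `m(P⁺_v) ≤ m(P_v)` for the other `v` in `B`, then
`m(R) = 0`, the orders of vanishing of `R` and `R⁺` are `0`, and the central values are units at `ℓ` with
residue classes as in (3). For abelian varieties: `Sha(A/L)` and `Sha(A⁺/L)` are finite, by Tate's inequality
`rank ≤ order`. -/
theorem result (k K : Type) [Field k] [Finite k] [Field K] [Algebra k K] (hK : IsCurveField k K)
    (ℓ : ℕ) [Fact ℓ.Prime] (hℓ : (ℓ : k) ≠ 0) (b : ℕ) (P Pt : Place k K → ℤ[X])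
    (U V Ut Vt : ℤ[X]) (h : LData k P U V) (ht : LData k Pt Ut Vt) (B : Finset (Place k K))
    (hB : ∀ v, v ∉ B → (P v).map (Int.castRingHom (ZMod ℓ)) =
      (Pt v).map (Int.castRingHom (ZMod ℓ))) :
    -- (1)
    (lead ℓ (Nat.card k) b U * lead ℓ (Nat.card k) b Vt * ∏ v ∈ B, localLead ℓ b v (P v) =
      lead ℓ (Nat.card k) b Ut * lead ℓ (Nat.card k) b V * ∏ v ∈ B, localLead ℓ b v (Pt v)) ∧
    ∀ (k' L : Type) [Field k'] [Finite k'] [Field L] [Algebra k' L] [Algebra k k'] [Algebra k L]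
      [Algebra K L] [IsScalarTower k K L] [IsScalarTower k k' L] [FiniteDimensional K L]
      [IsGalois K L] (s : ℕ) (T : Finset (Place k K)) (P' Pt' : Place k' L → ℤ[X])
      (R W Rt Wt : ℤ[X]), IsCurveField k' L → finrank K L = ℓ ^ s → T ⊆ B →
      LData k' P' R W → LData k' Pt' Rt Wt → Lifts T P P' → Lifts T Pt Pt' →
      -- (2)
      (lead ℓ (Nat.card k') b R * lead ℓ (Nat.card k') b Wt * localProd ℓ b B T P P' =
          lead ℓ (Nat.card k') b Rt * lead ℓ (Nat.card k') b W * localProd ℓ b B T Pt Pt' ∧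
        lead ℓ (Nat.card k') b R ≠ 0 ∧ lead ℓ (Nat.card k') b Rt ≠ 0 ∧
        lead ℓ (Nat.card k') b W ≠ 0 ∧ lead ℓ (Nat.card k') b Wt ≠ 0 ∧
        localProd ℓ b B T P P' ≠ 0 ∧ localProd ℓ b B T Pt Pt' ≠ 0) ∧
      -- (3)
      (order (Nat.card k') b R = mult ℓ (Nat.card k') b R →
        order (Nat.card k') b Rt = mult ℓ (Nat.card k') b Rt →
        ∃ y yt : ZMod ℓ, y ≠ 0 ∧ yt ≠ 0 ∧ ReducesTo ℓ (leading (Nat.card k') b R) y ∧
          ReducesTo ℓ (leading (Nat.card k') b Rt) yt ∧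
          y * lead ℓ (Nat.card k') b Wt * localProd ℓ b B T P P' =
            yt * lead ℓ (Nat.card k') b W * localProd ℓ b B T Pt Pt') ∧
      -- (4)
      (mult ℓ (Nat.card k') b W = 0 → mult ℓ (Nat.card k') b Rt = 0 →
        (∀ w ∈ Above k' L T, localMult ℓ b w (Pt' w) = 0) →
        (∀ v ∈ B, v ∉ T → localMult ℓ b v (Pt v) ≤ localMult ℓ b v (P v)) →
        mult ℓ (Nat.card k') b R = 0 ∧ order (Nat.card k') b R = 0 ∧
        order (Nat.card k') b Rt = 0 ∧
        ∃ y yt : ZMod ℓ, y ≠ 0 ∧ yt ≠ 0 ∧ ReducesTo ℓ (leading (Nat.card k') b R) y ∧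
          ReducesTo ℓ (leading (Nat.card k') b Rt) yt ∧
          y * lead ℓ (Nat.card k') b Wt * localProd ℓ b B T P P' =
            yt * lead ℓ (Nat.card k') b W * localProd ℓ b B T Pt Pt') := by
  classical
  have i1 : FF.IsFF k K := ⟨hK.essFiniteType, hK.trdeg_eq_one⟩
  obtain ⟨hc, hV, Λ, hΛ, hU⟩ := h
  obtain ⟨hct, hVt, Λt, hΛt, hUt⟩ := ht
  have hone := Pool.Agent.V1143.KC.Ld.ld_congr (l := ℓ) hℓ b hc hct B hB hΛ hΛt hV hVt hU hUt
  refine ⟨?_, ?_⟩
  · show lead ℓ (Nat.card k) b U * lead ℓ (Nat.card k) b Vt *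
        ∏ v ∈ B, lead ℓ (Nat.card k) b (expand ℤ (S.deg v) (P v)) =
      lead ℓ (Nat.card k) b Ut * lead ℓ (Nat.card k) b V *
        ∏ v ∈ B, lead ℓ (Nat.card k) b (expand ℤ (S.deg v) (Pt v))
    linear_combination -hone
  intro k' L _ _ _ _ _ _ _ _ _ _ _ s T P' Pt' R W Rt Wt hL hdeg hTB h' ht' hl hlt
  have jac := (Pool.Agent.V1143.KC.Jac.jac k K hK ℓ hℓ b P Pt U V Ut Vt ⟨hc, hV, Λ, hΛ, hU⟩
    ⟨hct, hVt, Λt, hΛt, hUt⟩ B hB).2 k' L s T P' Pt' R W Rt Wt hL hdeg hTB
    ⟨h'.1, h'.2, h'.3⟩ ⟨ht'.1, ht'.2, ht'.3⟩ hl hlt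
  obtain ⟨hc', hW, Λ', hΛ', hR⟩ := h'
  obtain ⟨hct', hWt, Λt', hΛt', hRt⟩ := ht'
  obtain ⟨c1, c2, c3, c4⟩ := lead_gen k K k' L hK hL ℓ s hℓ hdeg b P P' hc hc' T hl
    Λ Λ' hΛ hΛ' U V R W hV hU hW hR
  obtain ⟨d1, d2, d3, d4⟩ := lead_gen k K k' L hK hL ℓ s hℓ hdeg b Pt Pt' hct hct' T hlt
    Λt Λt' hΛt hΛt' Ut Vt Rt Wt hVt hUt hWt hRt
  have hqk : ((Nat.card k : ℕ) : ZMod ℓ) ≠ 0 := card_ne_zero_mod (k := k) hℓ
  have hℓk' : (ℓ : k') ≠ 0 := by
    rw [← map_natCast (algebraMap k k')]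
    exact (_root_.map_ne_zero _).2 hℓ
  have i2 : FF.IsFF k' L := ⟨hL.essFiniteType, hL.trdeg_eq_one⟩
  have hqk' : ((Nat.card k' : ℕ) : ZMod ℓ) ≠ 0 := card_ne_zero_mod (k := k') hℓk'
  have hlt1 := Finite.one_lt_card (α := k)
  have hlt2 := Finite.one_lt_card (α := k')
  have f1 : ¬ ℓ ∣ Nat.card k := fun h => hqk ((ZMod.natCast_eq_zero_iff _ ℓ).2 h)
  have f2 : ¬ ℓ ∣ Nat.card k' := fun h => hqk' ((ZMod.natCast_eq_zero_iff _ ℓ).2 h)
  have hU0 := Pool.Agent.V1143.KC.Gen.coeff_zero_of hc hΛ hV hU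
  have hR0 : R.coeff 0 = 1 := Pool.Agent.V1143.KC.Gen.coeff_zero_of hc' hΛ' hW hR
  have hRt0 : Rt.coeff 0 = 1 := Pool.Agent.V1143.KC.Gen.coeff_zero_of hct' hΛt' hWt hRt
  have g1 : ∀ A : ℤ[X], A.coeff 0 = 1 → lead ℓ (Nat.card k) b A ≠ 0 := fun A hA =>
    (c1 _ A hlt1 f1 hA).2.2.2.2.1
  have g2 : ∀ A : ℤ[X], A.coeff 0 = 1 → lead ℓ (Nat.card k') b A ≠ 0 := fun A hA =>
    (c1 _ A hlt2 f2 hA).2.2.2.2.1
  have hdK : ∀ v : Place k K, 0 < v.deg := fun v => Pool.Agent.H525R3.FFp.deg_pos v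
  have hdL : ∀ v : Place k' L, 0 < v.deg := fun v => Pool.Agent.H525R3.FFp.deg_pos v
  have e1 : ∀ (v : Place k K) (A : ℤ[X]), A.coeff 0 = 1 → (expand ℤ (S.deg v) A).coeff 0 = 1 := by
    intro v A hA
    rw [S.deg_eq, Pool.Agent.Y701.PE.coeff_zero_expand (hdK v), hA]
  have e2 : ∀ (v : Place k' L) (A : ℤ[X]), A.coeff 0 = 1 →
      (expand ℤ (S.deg v) A).coeff 0 = 1 := by
    intro v A hA
    rw [S.deg_eq, Pool.Agent.Y701.PE.coeff_zero_expand (hdL v), hA]
  have htwo : lead ℓ (Nat.card k') b R * lead ℓ (Nat.card k') b Wt * localProd ℓ b B T P P' =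
      lead ℓ (Nat.card k') b Rt * lead ℓ (Nat.card k') b W * localProd ℓ b B T Pt Pt' := by
    have h1 := Pool.Agent.V1143.KC.Ld.combine
      (fun v => lead ℓ (Nat.card k) b (expand ℤ (S.deg v) (P v)))
      (fun v => lead ℓ (Nat.card k) b (expand ℤ (S.deg v) (Pt v))) T B hTB (g1 V hV) (g1 Vt hVt)
      c3 d3 hone
    unfold localProd
    rw [← mul_assoc, ← mul_assoc]
    exact h1
  have hne : ∀ (Q : Place k K → ℤ[X]) (Q' : Place k' L → ℤ[X]), (∀ v, (Q v).coeff 0 = 1) →
      (∀ w, (Q' w).coeff 0 = 1) → localProd ℓ b B T Q Q' ≠ 0 := by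
    intro Q Q' hQ hQ'
    unfold localProd
    rw [finprod_mem_eq_finite_toFinset_prod _ c2]
    exact mul_ne_zero (Finset.prod_ne_zero_iff.2 fun w _ => g2 _ (e2 w _ (hQ' w)))
      (Finset.prod_ne_zero_iff.2 fun v _ => g1 _ (e1 v _ (hQ v)))
  have hthree : order (Nat.card k') b R = mult ℓ (Nat.card k') b R →
      order (Nat.card k') b Rt = mult ℓ (Nat.card k') b Rt →
      ∃ y yt : ZMod ℓ, y ≠ 0 ∧ yt ≠ 0 ∧ ReducesTo ℓ (leading (Nat.card k') b R) y ∧
        ReducesTo ℓ (leading (Nat.card k') b Rt) yt ∧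
        y * lead ℓ (Nat.card k') b Wt * localProd ℓ b B T P P' =
          yt * lead ℓ (Nat.card k') b W * localProd ℓ b B T Pt Pt' := by
    intro o1 o2
    obtain ⟨y, y1, y2, y3⟩ := (c1 _ R hlt2 f2 hR0).2.2.2.2.2
    obtain ⟨z, z1, z2, z3⟩ := (c1 _ Rt hlt2 f2 hRt0).2.2.2.2.2
    have hy := y2.2 o1
    have hz := z2.2 o2
    refine ⟨y, z, hy, hz, y1, z1, ?_⟩
    rw [y3 hy, z3 hz]
    exact htwo
  refine ⟨⟨htwo, g2 R hR0, g2 Rt hRt0, g2 W hW, g2 Wt hWt, hne P P' hc hc', hne Pt Pt' hct hct'⟩,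
    hthree, fun hW0 hRt0' hw0 hle => ?_⟩
  obtain ⟨h1, h2, h3, h4, h5⟩ := jac.2.1 hW0 hRt0' hw0 hle
  have h4' : order (Nat.card k') b R = 0 := h4
  have h5' : order (Nat.card k') b Rt = 0 := h5
  have h1' : mult ℓ (Nat.card k') b R = 0 := h1
  exact ⟨h1', h4', h5', hthree (by rw [h4', h1']) (by rw [h5', hRt0'])⟩

end Pool.Agent.Results.MP_72e2e6_nt.CongruentLeadingTerms
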